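import Mathlib

/-!
# No three in line: all slopes except `1` and `-1`

Let `p` be a prime, `p = 1` modulo `24`, and `N = 2 p + 1`. There are exactly `2 N` points of the grid
`{0, …, 2p}²` such that every line with three of them has slope `1` or `-1`: all points of a hyperbola
`x y = c` modulo `p` with a non-residue `c`, and the six points `(0,0)`, `(2p,2p)`, `(0,p)`, `(2p,p)`, `(p,0)`, `(p,2p)`.
-/

set_option autoImplicit false

namespace Pool.Agent.N3L

/-- the points `P`, `Q`, `R` are collinear -/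
def Col (P Q R : ℤ × ℤ) : Prop := (Q.1 - P.1) * (R.2 - P.2) = (Q.2 - P.2) * (R.1 - P.1)

/-- the line through `P` and `Q` has slope `1` or `-1` -/
def Sl (P Q : ℤ × ℤ) : Prop := Q.2 - P.2 = Q.1 - P.1 ∨ Q.2 - P.2 = -(Q.1 - P.1)

/-- a point of the hyperbola -/
structure Hyp (p : ℕ) (c : ZMod p) (P : ℤ × ℤ) : Prop where
  x0 : 0 < P.1
  x1 : P.1 < 2 * p
  y0 : 0 < P.2
  y1 : P.2 < 2 * p
  h : (P.1 : ZMod p) * (P.2 : ZMod p) = c

/-- the six centres, divided by `p` -/
def T0 : Finset (ℤ × ℤ) := {(0, 0), (2, 2), (0, 1), (2, 1), (1, 0), (1, 2)}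

/-- one of the six centres -/
def Cen (p : ℕ) (P : ℤ × ℤ) : Prop := ∃ u ∈ T0, P = (p * u.1, p * u.2)

theorem col_swap12 {P Q R : ℤ × ℤ} (h : Col P Q R) : Col Q P R := by
  unfold Col at *; linear_combination (-1) * h

theorem col_swap23 {P Q R : ℤ × ℤ} (h : Col P Q R) : Col P R Q := by
  unfold Col at *; linear_combination (-1) * h

theorem sl_symm {P Q : ℤ × ℤ} (h : Sl P Q) : Sl Q P := by
  unfold Sl at *; rcases h with h | h
  · left; linear_combination (-1) * h
  · right; linear_combination (-1) * h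

/-- the slope is the same for `P`, `R` -/
theorem sl_trans {P Q R : ℤ × ℤ} (hc : Col P Q R) (hn : P ≠ Q) (h : Sl P Q) : Sl P R := by
  unfold Sl Col at *
  have hx : Q.1 - P.1 ≠ 0 := by
    intro h0
    apply hn
    rcases h with h | h
    · exact Prod.ext (by linarith) (by linarith)
    · exact Prod.ext (by linarith) (by linarith)
  rcases h with h | h
  · left
    rw [h] at hc
    exact mul_left_cancel₀ hx hc
  · right
    rw [h] at hc
    have : (Q.1 - P.1) * (R.2 - P.2) = (Q.1 - P.1) * -(R.1 - P.1) := by linear_combination hc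
    exact mul_left_cancel₀ hx this

section

variable {p : ℕ} [Fact p.Prime] {c : ZMod p}

theorem hyp_x (hc : c ≠ 0) {P : ℤ × ℤ} (h : Hyp p c P) : (P.1 : ZMod p) ≠ 0 := by
  intro h0
  apply hc
  rw [← h.h, h0, zero_mul]

theorem hyp_y (hc : c ≠ 0) {P : ℤ × ℤ} (h : Hyp p c P) : (P.2 : ZMod p) ≠ 0 := by
  intro h0
  apply hc
  rw [← h.h, h0, mul_zero]

theorem diff_mul {a b : ℤ} (h : (a : ZMod p) = (b : ZMod p)) : ∃ k : ℤ, b - a = p * k := by
  have := (ZMod.intCast_eq_intCast_iff_dvd_sub a b p).1 h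
  obtain ⟨k, hk⟩ := this
  exact ⟨k, hk⟩

theorem same_y (hc : c ≠ 0) {P Q : ℤ × ℤ} (hP : Hyp p c P) (hQ : Hyp p c Q)
    (h : (P.1 : ZMod p) = (Q.1 : ZMod p)) : (P.2 : ZMod p) = (Q.2 : ZMod p) := by
  have h1 : (P.1 : ZMod p) * (P.2 : ZMod p) = (P.1 : ZMod p) * (Q.2 : ZMod p) := by
    rw [hP.h, h, hQ.h]
  exact mul_left_cancel₀ (hyp_x hc hP) h1

theorem same_x (hc : c ≠ 0) {P Q : ℤ × ℤ} (hP : Hyp p c P) (hQ : Hyp p c Q)
    (h : (P.2 : ZMod p) = (Q.2 : ZMod p)) : (P.1 : ZMod p) = (Q.1 : ZMod p) := by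
  have h1 : (P.1 : ZMod p) * (P.2 : ZMod p) = (Q.1 : ZMod p) * (P.2 : ZMod p) := by
    rw [hP.h, h, hQ.h]
  exact mul_right_cancel₀ (hyp_y hc hP) h1

theorem cen_zero {P : ℤ × ℤ} (h : Cen p P) : (P.1 : ZMod p) = 0 ∧ (P.2 : ZMod p) = 0 := by
  obtain ⟨u, _, rfl⟩ := h
  simp

/-- the multiple is `-1`, `0` or `1` -/
theorem small_mul {a b k : ℤ} (ha : 0 < a) (ha' : a < 2 * p) (hb : 0 < b) (hb' : b < 2 * p) (h : b - a = p * k) :
    k = -1 ∨ k = 0 ∨ k = 1 := by
  have hp : (0 : ℤ) < p := by exact_mod_cast (Fact.out : p.Prime).pos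
  have h1 : k < 2 := by
    by_contra hcon
    push Not at hcon
    nlinarith
  have h2 : -2 < k := by
    by_contra hcon
    push Not at hcon
    nlinarith
  omega

/-- three different points of a column or of a row -/
theorem no_three {a b d : ℤ} (ha : 0 < a) (ha' : a < 2 * p) (hb : 0 < b) (hb' : b < 2 * p) (hd : 0 < d) (hd' : d < 2 * p)
    (h1 : (a : ZMod p) = (b : ZMod p)) (h2 : (a : ZMod p) = (d : ZMod p)) (n1 : a ≠ b) (n2 : a ≠ d) (n3 : b ≠ d) : False := by
  obtain ⟨k, hk⟩ := diff_mul h1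
  obtain ⟨l, hl⟩ := diff_mul h2
  obtain ⟨m, hm⟩ := diff_mul (h1.symm.trans h2)
  have hp : (0 : ℤ) < p := by exact_mod_cast (Fact.out : p.Prime).pos
  rcases small_mul ha ha' hb hb' hk with rfl | rfl | rfl <;> rcases small_mul ha ha' hd hd' hl with rfl | rfl | rfl <;>
    rcases small_mul hb hb' hd hd' hm with rfl | rfl | rfl <;> first | omega | (exfalso; nlinarith)

/-- two points of the same class -/
theorem same_class (hc : c ≠ 0) {P Q R : ℤ × ℤ} (hP : Hyp p c P) (hQ : Hyp p c Q) (hR : Hyp p c R ∨ Cen p R)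
    (hPQ : P ≠ Q) (hPR : P ≠ R) (hQR : Q ≠ R) (hcol : Col P Q R) (h : (P.1 : ZMod p) = (Q.1 : ZMod p)) : Sl P Q := by
  have hy := same_y hc hP hQ h
  obtain ⟨k, hk⟩ := diff_mul h
  obtain ⟨l, hl⟩ := diff_mul hy
  have hp : (0 : ℤ) < p := by exact_mod_cast (Fact.out : p.Prime).pos
  have hkc := small_mul hP.x0 hP.x1 hQ.x0 hQ.x1 hk
  have hlc := small_mul hP.y0 hP.y1 hQ.y0 hQ.y1 hl
  by_cases hk0 : k = 0
  · exfalso
    have e1 : Q.1 = P.1 := by rw [hk0, mul_zero] at hk; linarith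
    have e2 : Q.2 ≠ P.2 := fun h' => hPQ (Prod.ext e1.symm h'.symm)
    have e3 : R.1 = P.1 := by
      unfold Col at hcol
      rw [e1, sub_self, zero_mul] at hcol
      rcases mul_eq_zero.1 hcol.symm with h' | h'
      · exact absurd (by linarith) e2
      · linarith
    rcases hR with hR | hR
    · have hy2 := same_y hc hP hR (by rw [e3])
      refine no_three hP.y0 hP.y1 hQ.y0 hQ.y1 hR.y0 hR.y1 hy hy2 (Ne.symm e2) ?_ ?_
      · intro h'; exact hPR (Prod.ext e3.symm h')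
      · intro h'; exact hQR (Prod.ext (e1.trans e3.symm) h')
    · have := (cen_zero hR).1
      rw [e3] at this
      exact hyp_x hc hP this
  by_cases hl0 : l = 0
  · exfalso
    have e1 : Q.2 = P.2 := by rw [hl0, mul_zero] at hl; linarith
    have e2 : Q.1 ≠ P.1 := fun h' => hPQ (Prod.ext h'.symm e1.symm)
    have e3 : R.2 = P.2 := by
      unfold Col at hcol
      rw [e1, sub_self, zero_mul] at hcol
      rcases mul_eq_zero.1 hcol with h' | h'
      · exact absurd (by linarith) e2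
      · linarith
    rcases hR with hR | hR
    · have hx2 := same_x hc hP hR (by rw [e3])
      refine no_three hP.x0 hP.x1 hQ.x0 hQ.x1 hR.x0 hR.x1 h hx2 (Ne.symm e2) ?_ ?_
      · intro h'; exact hPR (Prod.ext h' e3.symm)
      · intro h'; exact hQR (Prod.ext h' (e1.trans e3.symm))
    · have := (cen_zero hR).2
      rw [e3] at this
      exact hyp_y hc hP this
  unfold Sl
  rw [hk, hl]
  rcases hkc with rfl | rfl | rfl <;> rcases hlc with rfl | rfl | rfl <;> simp at hk0 hl0 ⊢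

/-- three points of the hyperbola -/
theorem three_hyp (hc : c ≠ 0) {P Q R : ℤ × ℤ} (hP : Hyp p c P) (hQ : Hyp p c Q) (hR : Hyp p c R)
    (hPQ : P ≠ Q) (hPR : P ≠ R) (hQR : Q ≠ R) (hcol : Col P Q R) : Sl P Q := by
  have hcm : ((Q.1 : ZMod p) - P.1) * ((R.2 : ZMod p) - P.2) = ((Q.2 : ZMod p) - P.2) * ((R.1 : ZMod p) - P.1) := by
    have := congrArg (Int.cast : ℤ → ZMod p) hcol
    push_cast at this
    exact this
  have key : c * (((Q.1 : ZMod p) - P.1) * ((P.1 : ZMod p) - R.1) * ((Q.1 : ZMod p) - R.1)) = 0 := by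
    have h1 := hP.h
    have h2 := hQ.h
    have h3 := hR.h
    generalize (P.1 : ZMod p) = x1 at *
    generalize (Q.1 : ZMod p) = x2 at *
    generalize (R.1 : ZMod p) = x3 at *
    generalize (P.2 : ZMod p) = y1 at *
    generalize (Q.2 : ZMod p) = y2 at *
    generalize (R.2 : ZMod p) = y3 at *
    have e1 : x1 * x2 * x3 * ((x2 - x1) * (y3 - y1)) = x2 * (x2 - x1) * (x1 * (x3 * y3) - x3 * (x1 * y1)) := by ring
    have e2 : x1 * x2 * x3 * ((y2 - y1) * (x3 - x1)) = x3 * (x3 - x1) * (x1 * (x2 * y2) - x2 * (x1 * y1)) := by ring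
    have e3 : x2 * (x2 - x1) * (x1 * (x3 * y3) - x3 * (x1 * y1)) = x3 * (x3 - x1) * (x1 * (x2 * y2) - x2 * (x1 * y1)) := by
      rw [← e1, ← e2, hcm]
    rw [h1, h2, h3] at e3
    linear_combination e3
  have h4 := (mul_eq_zero.1 key).resolve_left hc
  rcases mul_eq_zero.1 h4 with h5 | h5
  · rcases mul_eq_zero.1 h5 with h6 | h6
    · exact same_class hc hP hQ (Or.inl hR) hPQ hPR hQR hcol (sub_eq_zero.1 h6).symm
    · have := same_class hc hP hR (Or.inl hQ) hPR hPQ (Ne.symm hQR) (col_swap23 hcol) (sub_eq_zero.1 h6)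
      exact sl_trans (col_swap23 hcol) hPR this
  · have hs := same_class hc hQ hR (Or.inl hP) hQR (Ne.symm hPQ) (Ne.symm hPR) (col_swap23 (col_swap12 hcol)) (sub_eq_zero.1 h5)
    exact sl_symm (sl_trans (col_swap23 (col_swap12 hcol)) hQR hs)

/-- the numbers `±1`, `±2`, `±3`, `±6` are squares -/
def Sq (p : ℕ) : Prop := IsSquare (2 : ZMod p) ∧ IsSquare (3 : ZMod p) ∧ IsSquare (-1 : ZMod p)

theorem sq_of (hp : p % 24 = 1) : Sq p := by
  have hpp : p.Prime := Fact.out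
  have hp2 : p ≠ 2 := by omega
  refine ⟨?_, ?_, ?_⟩
  · rw [ZMod.exists_sq_eq_two_iff hp2]; left; omega
  · haveI : Fact (Nat.Prime 3) := ⟨by norm_num⟩
    have h := @ZMod.exists_sq_eq_prime_iff_of_mod_four_eq_one p 3 _ _ (by omega) (by norm_num)
    have h1 : IsSquare ((p : ℕ) : ZMod 3) := by
      have : ((p : ℕ) : ZMod 3) = 1 := by
        have h3 : p % 3 = 1 := by omega
        rw [← ZMod.natCast_mod, h3]
        rfl
      rw [this]
      exact IsSquare.one
    have := h.2 h1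
    exact_mod_cast this
  · rw [ZMod.exists_sq_eq_neg_one_iff]; omega

/-- a number `n` with `|n| ∈ {1, 2, 3, 6}` is a nonzero square -/
theorem sq_cases (h : Sq p) (hp : p % 24 = 1) {n : ℤ} (hn : n.natAbs = 2 ∨ n.natAbs = 3 ∨ n.natAbs = 6) :
    IsSquare (n : ZMod p) ∧ (n : ZMod p) ≠ 0 := by
  obtain ⟨h2, h3, h1⟩ := h
  have hpp : p.Prime := Fact.out
  have h6 : IsSquare (6 : ZMod p) := by
    have : (6 : ZMod p) = 2 * 3 := by norm_num
    rw [this]; exact h2.mul h3
  have hneg : ∀ x : ZMod p, IsSquare x → IsSquare (-x) := by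
    intro x hx
    rw [← neg_one_mul]
    exact h1.mul hx
  refine ⟨?_, ?_⟩
  · rcases hn with h | h | h <;> rcases Int.natAbs_eq n with e | e <;> rw [h] at e <;> rw [e] <;> push_cast
    · exact h2
    · exact hneg _ h2
    · exact h3
    · exact hneg _ h3
    · exact h6
    · exact hneg _ h6
  · intro h0
    rw [ZMod.intCast_zmod_eq_zero_iff_dvd] at h0
    have h5 : p ∣ n.natAbs := Int.natCast_dvd.1 h0
    have h6' : n.natAbs ∣ 6 := by rcases hn with h | h | h <;> rw [h] <;> norm_num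
    have h7 : p ∣ 6 := h5.trans h6'
    have h8 : p ≤ 6 := Nat.le_of_dvd (by norm_num) h7
    have := hpp.two_le
    omega

/-- `n c` is not a square -/
theorem not_sq (h : Sq p) (hp : p % 24 = 1) (hns : ¬ IsSquare c) {n : ℤ} (hn : n.natAbs = 2 ∨ n.natAbs = 3 ∨ n.natAbs = 6)
    {z : ZMod p} (hz : (n : ZMod p) * c = z * z) : False := by
  obtain ⟨⟨w, hw⟩, h0⟩ := sq_cases h hp hn
  have hw0 : w ≠ 0 := by rintro rfl; apply h0; rw [hw, mul_zero]
  apply hns
  refine ⟨z * w⁻¹, ?_⟩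
  rw [hw] at hz
  field_simp
  linear_combination hz

/-- one centre and two points of the hyperbola -/
theorem one_cen (hc : c ≠ 0) (hs : Sq p) (hp24 : p % 24 = 1) (hns : ¬ IsSquare c) {P Q R : ℤ × ℤ} (hP : Cen p P)
    (hQ : Hyp p c Q) (hR : Hyp p c R)
    (hPQ : P ≠ Q) (hPR : P ≠ R) (hQR : Q ≠ R) (hcol : Col P Q R) : Sl P Q := by
  have hp : (0 : ℤ) < p := by exact_mod_cast (Fact.out : p.Prime).pos
  by_cases hxx : (Q.1 : ZMod p) = (R.1 : ZMod p)
  · have h1 := same_class hc hQ hR (Or.inr hP) hQR (Ne.symm hPQ) (Ne.symm hPR) (col_swap23 (col_swap12 hcol)) hxx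
    exact sl_symm (sl_trans (col_swap23 (col_swap12 hcol)) hQR h1)
  obtain ⟨z1, z2⟩ := cen_zero hP
  have hcm : ((Q.1 : ZMod p)) * ((R.2 : ZMod p)) = ((Q.2 : ZMod p)) * ((R.1 : ZMod p)) := by
    have := congrArg (Int.cast : ℤ → ZMod p) hcol
    push_cast at this
    rw [z1, z2] at this
    simpa using this
  have hsum : (R.1 : ZMod p) = -(Q.1 : ZMod p) := by
    have h2 := hQ.h
    have h3 := hR.h
    have hx2 := hyp_x hc hQ
    have hx3 := hyp_x hc hR
    generalize (Q.1 : ZMod p) = x2 at *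
    generalize (R.1 : ZMod p) = x3 at *
    generalize (Q.2 : ZMod p) = y2 at *
    generalize (R.2 : ZMod p) = y3 at *
    have e1 : c * ((x2 - x3) * (x2 + x3)) = 0 := by
      have : x2 * x3 * (x2 * y3) = x2 * x3 * (y2 * x3) := by rw [hcm]
      have e2 : x2 * x2 * (x3 * y3) = x3 * x3 * (x2 * y2) := by linear_combination this
      rw [h2, h3] at e2
      linear_combination e2
    have e2 := (mul_eq_zero.1 e1).resolve_left hc
    rcases mul_eq_zero.1 e2 with e3 | e3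
    · exact absurd (sub_eq_zero.1 e3) hxx
    · linear_combination e3
  have hsumy : (R.2 : ZMod p) = -(Q.2 : ZMod p) := by
    have h2 := hQ.h
    have h3 := hR.h
    rw [hsum, ← h2] at h3
    have : (Q.1 : ZMod p) * (-(R.2 : ZMod p)) = (Q.1 : ZMod p) * (Q.2 : ZMod p) := by linear_combination h3
    have := mul_left_cancel₀ (hyp_x hc hQ) this
    linear_combination (-1) * this
  -- the integers `s`, `t`
  obtain ⟨u, hu, rfl⟩ := hP
  have hS : ∃ s : ℤ, (Q.1 - p * u.1) + (R.1 - p * u.1) = p * s := by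
    have : (p : ℤ) ∣ (Q.1 - p * u.1) + (R.1 - p * u.1) := by
      rw [← ZMod.intCast_zmod_eq_zero_iff_dvd]
      push_cast
      rw [hsum]
      simp
    obtain ⟨s, hs⟩ := this
    exact ⟨s, hs⟩
  have hT : ∃ t : ℤ, (Q.2 - p * u.2) + (R.2 - p * u.2) = p * t := by
    have : (p : ℤ) ∣ (Q.2 - p * u.2) + (R.2 - p * u.2) := by
      rw [← ZMod.intCast_zmod_eq_zero_iff_dvd]
      push_cast
      rw [hsumy]
      simp
    obtain ⟨s, hs⟩ := this
    exact ⟨s, hs⟩
  obtain ⟨s, hs'⟩ := hS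
  obtain ⟨t, ht'⟩ := hT
  unfold Col at hcol
  simp only at hcol
  unfold Sl
  simp only
  have hax : ((Q.1 - p * u.1 : ℤ) : ZMod p) = (Q.1 : ZMod p) := by push_cast; simp
  have hbx : ((Q.2 - p * u.2 : ℤ) : ZMod p) = (Q.2 : ZMod p) := by push_cast; simp
  have ha0 : Q.1 - p * u.1 ≠ 0 := by
    intro h0
    rw [h0] at hax
    exact hyp_x hc hQ (by rw [← hax]; simp)
  have hb0 : Q.2 - p * u.2 ≠ 0 := by
    intro h0
    rw [h0] at hbx
    exact hyp_y hc hQ (by rw [← hbx]; simp)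
  have hst : (Q.1 - p * u.1) * t = s * (Q.2 - p * u.2) := by
    have h1 : (p : ℤ) * ((Q.1 - p * u.1) * t) = p * (s * (Q.2 - p * u.2)) := by
      linear_combination hcol - (Q.1 - p * u.1) * ht' + (Q.2 - p * u.2) * hs'
    exact mul_left_cancel₀ hp.ne' h1
  have hsq : ((s * t : ℤ) : ZMod p) * c = ((Q.1 : ZMod p) * t) * ((Q.1 : ZMod p) * t) := by
    have h1 := congrArg (Int.cast : ℤ → ZMod p) hst
    rw [Int.cast_mul, Int.cast_mul, hax, hbx] at h1
    push_cast
    rw [← hQ.h]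
    linear_combination (-(Q.1 : ZMod p) * t) * h1
  -- bounds
  have hb : (u.1 = 0 ∨ u.1 = 1 ∨ u.1 = 2) ∧ (u.2 = 0 ∨ u.2 = 1 ∨ u.2 = 2) ∧ (u.1 ≠ 1 ∨ u.2 ≠ 1) := by
    unfold T0 at hu
    simp only [Finset.mem_insert, Finset.mem_singleton] at hu
    rcases hu with rfl | rfl | rfl | rfl | rfl | rfl <;> decide
  obtain ⟨hb1, hb2, hb3⟩ := hb
  have hsb : -4 < s ∧ s < 4 := by
    have := hQ.x0; have := hQ.x1; have := hR.x0; have := hR.x1
    constructor
    · by_contra hcon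
      push Not at hcon
      rcases hb1 with h | h | h <;> rw [h] at hs' <;> nlinarith
    · by_contra hcon
      push Not at hcon
      rcases hb1 with h | h | h <;> rw [h] at hs' <;> nlinarith
  have htb : -4 < t ∧ t < 4 := by
    have := hQ.y0; have := hQ.y1; have := hR.y0; have := hR.y1
    constructor
    · by_contra hcon
      push Not at hcon
      rcases hb2 with h | h | h <;> rw [h] at ht' <;> nlinarith
    · by_contra hcon
      push Not at hcon
      rcases hb2 with h | h | h <;> rw [h] at ht' <;> nlinarith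
  have hs00 : ¬ (s = 0 ∧ t = 0) := by
    rintro ⟨rfl, rfl⟩
    have := hQ.x0; have := hQ.x1; have := hR.x0; have := hR.x1
    have := hQ.y0; have := hQ.y1; have := hR.y0; have := hR.y1
    rw [mul_zero] at hs' ht'
    rcases hb3 with h | h
    · rcases hb1 with h' | h' | h'
      · rw [h'] at hs'; linarith
      · exact h h'
      · rw [h'] at hs'; linarith
    · rcases hb2 with h' | h' | h'
      · rw [h'] at ht'; linarith
      · exact h h'
      · rw [h'] at ht'; linarith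
  have hs0 : s ≠ 0 := by
    intro h0
    rw [h0, zero_mul] at hst
    rcases mul_eq_zero.1 hst with h | h
    · exact ha0 h
    · exact hs00 ⟨h0, h⟩
  have ht0 : t ≠ 0 := by
    intro h0
    rw [h0, mul_zero] at hst
    rcases mul_eq_zero.1 hst.symm with h | h
    · exact hs0 h
    · exact hb0 h
  by_cases he : s = t
  · left
    subst he
    have : s * (Q.1 - p * u.1) = s * (Q.2 - p * u.2) := by linear_combination hst
    exact (mul_left_cancel₀ hs0 this).symm
  by_cases he' : s = -t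
  · right
    subst he'
    have : t * (Q.1 - p * u.1) = t * -(Q.2 - p * u.2) := by linear_combination hst
    have := mul_left_cancel₀ ht0 this
    linarith
  exfalso
  refine not_sq hs hp24 hns (n := s * t) ?_ hsq
  rw [Int.natAbs_mul]
  obtain ⟨s1, s2⟩ := hsb
  obtain ⟨t1, t2⟩ := htb
  have hsc : s = -3 ∨ s = -2 ∨ s = -1 ∨ s = 1 ∨ s = 2 ∨ s = 3 := by omega
  have htc : t = -3 ∨ t = -2 ∨ t = -1 ∨ t = 1 ∨ t = 2 ∨ t = 3 := by omega
  rcases hsc with rfl | rfl | rfl | rfl | rfl | rfl <;> rcases htc with rfl | rfl | rfl | rfl | rfl | rfl <;>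
    first | (exfalso; exact he rfl) | (exfalso; exact he' rfl) | (exfalso; revert he'; decide) | decide

/-- two centres and one point of the hyperbola -/
theorem two_cen (hc : c ≠ 0) (hs : Sq p) (hp24 : p % 24 = 1) (hns : ¬ IsSquare c) {P Q R : ℤ × ℤ} (hP : Cen p P)
    (hQ : Cen p Q) (hR : Hyp p c R) (hPQ : P ≠ Q) (hcol : Col P Q R) : Sl P Q := by
  have hp : (0 : ℤ) < p := by exact_mod_cast (Fact.out : p.Prime).pos
  have hpp : p.Prime := Fact.out
  obtain ⟨u, hu, rfl⟩ := hP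
  obtain ⟨v, hv, rfl⟩ := hQ
  unfold Col at hcol
  simp only at hcol
  have h1 : (v.1 - u.1) * (R.2 - p * u.2) = (v.2 - u.2) * (R.1 - p * u.1) := by
    have : (p : ℤ) * ((v.1 - u.1) * (R.2 - p * u.2)) = p * ((v.2 - u.2) * (R.1 - p * u.1)) := by linear_combination hcol
    exact mul_left_cancel₀ hp.ne' this
  have h2 : (((v.1 - u.1 : ℤ)) : ZMod p) * (R.2 : ZMod p) = ((v.2 - u.2 : ℤ) : ZMod p) * (R.1 : ZMod p) := by
    have := congrArg (Int.cast : ℤ → ZMod p) h1
    rw [Int.cast_mul, Int.cast_mul] at this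
    have e1 : ((R.2 - p * u.2 : ℤ) : ZMod p) = (R.2 : ZMod p) := by push_cast; simp
    have e2 : ((R.1 - p * u.1 : ℤ) : ZMod p) = (R.1 : ZMod p) := by push_cast; simp
    rw [e1, e2] at this
    exact this
  have hb : ∀ w ∈ T0, (w.1 = 0 ∨ w.1 = 1 ∨ w.1 = 2) ∧ (w.2 = 0 ∨ w.2 = 1 ∨ w.2 = 2) := by decide
  obtain ⟨u1, u2⟩ := hb u hu
  obtain ⟨v1, v2⟩ := hb v hv
  have huv : ¬ (v.1 - u.1 = 0 ∧ v.2 - u.2 = 0) := by
    rintro ⟨h3, h4⟩
    apply hPQ
    have e1 : v.1 = u.1 := by linarith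
    have e2 : v.2 = u.2 := by linarith
    rw [e1, e2]
  have hi : -2 ≤ v.1 - u.1 ∧ v.1 - u.1 ≤ 2 := by omega
  have hj : -2 ≤ v.2 - u.2 ∧ v.2 - u.2 ≤ 2 := by omega
  unfold Sl
  simp only
  have g1 : (p : ℤ) * v.1 - p * u.1 = p * (v.1 - u.1) := by ring
  have g2 : (p : ℤ) * v.2 - p * u.2 = p * (v.2 - u.2) := by ring
  rw [g1, g2]
  generalize v.1 - u.1 = i at *
  generalize v.2 - u.2 = j at *
  have hcast : ∀ n : ℤ, -2 ≤ n → n ≤ 2 → n ≠ 0 → (n : ZMod p) ≠ 0 := by
    intro n n1 n2 n0 h0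
    rw [ZMod.intCast_zmod_eq_zero_iff_dvd] at h0
    have h5 : p ∣ n.natAbs := Int.natCast_dvd.1 h0
    have h6 : 0 < n.natAbs := Int.natAbs_pos.2 n0
    have h7 := Nat.le_of_dvd h6 h5
    have : 2 ≤ p := hpp.two_le
    have : p ≠ 2 := by omega
    omega
  by_cases hi0 : i = 0
  · exfalso
    rw [hi0, Int.cast_zero, zero_mul] at h2
    rcases mul_eq_zero.1 h2.symm with h | h
    · exact hcast j hj.1 hj.2 (fun h' => huv ⟨hi0, h'⟩) h
    · exact hyp_x hc hR h
  by_cases hj0 : j = 0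
  · exfalso
    rw [hj0, Int.cast_zero, zero_mul] at h2
    rcases mul_eq_zero.1 h2 with h | h
    · exact hcast i hi.1 hi.2 hi0 h
    · exact hyp_y hc hR h
  by_cases he : i = j
  · left; rw [he]
  by_cases he' : i = -j
  · right; rw [he']; ring
  exfalso
  refine not_sq hs hp24 hns (n := i * j) (z := (j : ZMod p) * (R.1 : ZMod p)) ?_ ?_
  · rw [Int.natAbs_mul]
    have hsc : i = -2 ∨ i = -1 ∨ i = 1 ∨ i = 2 := by omega
    have htc : j = -2 ∨ j = -1 ∨ j = 1 ∨ j = 2 := by omega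
    rcases hsc with rfl | rfl | rfl | rfl <;> rcases htc with rfl | rfl | rfl | rfl <;>
      first | (exfalso; exact he rfl) | (exfalso; exact he' rfl) | (exfalso; revert he'; decide) | decide
  · push_cast
    rw [← hR.h]
    linear_combination ((R.1 : ZMod p) * j) * h2

/-- three centres are never collinear -/
theorem three_cen {P Q R : ℤ × ℤ} (hP : Cen p P) (hQ : Cen p Q) (hR : Cen p R)
    (hPQ : P ≠ Q) (hPR : P ≠ R) (hQR : Q ≠ R) (hcol : Col P Q R) : False := by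
  have hp : (0 : ℤ) < p := by exact_mod_cast (Fact.out : p.Prime).pos
  obtain ⟨u, hu, rfl⟩ := hP
  obtain ⟨v, hv, rfl⟩ := hQ
  obtain ⟨w, hw, rfl⟩ := hR
  have h1 : (v.1 - u.1) * (w.2 - u.2) = (v.2 - u.2) * (w.1 - u.1) := by
    unfold Col at hcol
    simp only at hcol
    have : ((p : ℤ) * p) * ((v.1 - u.1) * (w.2 - u.2)) = (p * p) * ((v.2 - u.2) * (w.1 - u.1)) := by linear_combination hcol
    exact mul_left_cancel₀ (by positivity) this
  have h2 : ∀ u ∈ T0, ∀ v ∈ T0, ∀ w ∈ T0, (v.1 - u.1) * (w.2 - u.2) = (v.2 - u.2) * (w.1 - u.1) → u = v ∨ u = w ∨ v = w := by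
    decide
  rcases h2 u hu v hv w hw h1 with h | h | h
  · exact hPQ (by rw [h])
  · exact hPR (by rw [h])
  · exact hQR (by rw [h])

/-- all cases -/
theorem all_cases (hc : c ≠ 0) (hs : Sq p) (hp24 : p % 24 = 1) (hns : ¬ IsSquare c) {P Q R : ℤ × ℤ}
    (hP : Hyp p c P ∨ Cen p P) (hQ : Hyp p c Q ∨ Cen p Q) (hR : Hyp p c R ∨ Cen p R)
    (hPQ : P ≠ Q) (hPR : P ≠ R) (hQR : Q ≠ R) (hcol : Col P Q R) : Sl P Q := by
  rcases hP with hP | hP <;> rcases hQ with hQ | hQ <;> rcases hR with hR | hR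
  · exact three_hyp hc hP hQ hR hPQ hPR hQR hcol
  · have h1 : Col R P Q := col_swap12 (col_swap23 hcol)
    have h2 := one_cen hc hs hp24 hns hR hP hQ (Ne.symm hPR) (Ne.symm hQR) hPQ h1
    have h3 := sl_symm h2
    exact sl_trans (col_swap23 hcol) hPR h3
  · have h1 : Col Q P R := col_swap12 hcol
    exact sl_symm (one_cen hc hs hp24 hns hQ hP hR (Ne.symm hPQ) hQR hPR h1)
  · have h1 : Col Q R P := col_swap23 (col_swap12 hcol)
    have h2 := two_cen hc hs hp24 hns hQ hR hP hQR h1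
    exact sl_symm (sl_trans h1 hQR h2)
  · exact one_cen hc hs hp24 hns hP hQ hR hPQ hPR hQR hcol
  · have h1 : Col P R Q := col_swap23 hcol
    have h2 := two_cen hc hs hp24 hns hP hR hQ hPR h1
    exact sl_trans h1 hPR h2
  · exact two_cen hc hs hp24 hns hP hQ hR hPQ hcol
  · exact (three_cen hP hQ hR hPQ hPR hQR hcol).elim

/-- the points of the hyperbola -/
noncomputable def H (p : ℕ) [Fact p.Prime] (c : ZMod p) : Finset (ℤ × ℤ) :=
  (((Finset.univ : Finset (ZMod p)).erase 0) ×ˢ (Finset.range 2 ×ˢ Finset.range 2)).image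
    fun z => ((z.1.val : ℤ) + z.2.1 * p, ((c * z.1⁻¹).val : ℤ) + z.2.2 * p)

theorem H_hyp (hc : c ≠ 0) {P : ℤ × ℤ} (h : P ∈ H p c) : Hyp p c P := by
  unfold H at h
  rw [Finset.mem_image] at h
  obtain ⟨⟨k, i, j⟩, hz, rfl⟩ := h
  simp only [Finset.mem_product, Finset.mem_erase, Finset.mem_univ, and_true, Finset.mem_range] at hz
  obtain ⟨hk, hi, hj⟩ := hz
  have hp : 0 < p := (Fact.out : p.Prime).pos
  have h1 : 0 < k.val := Nat.pos_of_ne_zero fun h0 => hk ((ZMod.val_eq_zero k).1 h0)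
  have h2 : k.val < p := ZMod.val_lt k
  have h3 : c * k⁻¹ ≠ 0 := mul_ne_zero hc (inv_ne_zero hk)
  have h4 : 0 < (c * k⁻¹).val := Nat.pos_of_ne_zero fun h0 => h3 ((ZMod.val_eq_zero _).1 h0)
  have h5 : (c * k⁻¹).val < p := ZMod.val_lt _
  have hi' : i = 0 ∨ i = 1 := by omega
  have hj' : j = 0 ∨ j = 1 := by omega
  refine ⟨?_, ?_, ?_, ?_, ?_⟩
  · simp only
    rcases hi' with rfl | rfl <;> push_cast <;> omega
  · simp only
    rcases hi' with rfl | rfl <;> push_cast <;> omega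
  · simp only
    rcases hj' with rfl | rfl <;> push_cast <;> omega
  · simp only
    rcases hj' with rfl | rfl <;> push_cast <;> omega
  · simp only
    push_cast
    simp only [ZMod.natCast_val, ZMod.cast_id', id_eq, CharP.cast_eq_zero, mul_zero, add_zero]
    field_simp

theorem H_card (hc : c ≠ 0) : (H p c).card = 4 * (p - 1) := by
  have hp : 0 < p := (Fact.out : p.Prime).pos
  unfold H
  rw [Finset.card_image_of_injOn]
  · rw [Finset.card_product, Finset.card_product, Finset.card_erase_of_mem (Finset.mem_univ _), Finset.card_univ, ZMod.card]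
    simp
    ring
  · rintro ⟨k, i, j⟩ h1 ⟨k', i', j'⟩ h2 h
    simp only [Prod.mk.injEq] at h
    obtain ⟨e1, e2⟩ := h
    have hk : k = k' := by
      have := congrArg (Int.cast : ℤ → ZMod p) e1
      push_cast at this
      simpa using this
    subst hk
    have hi : i = i' := by
      have h3 : (i : ℤ) * p = i' * p := by linarith
      have := mul_right_cancel₀ (by exact_mod_cast hp.ne' : (p : ℤ) ≠ 0) h3
      exact_mod_cast this
    have hj : j = j' := by
      have h3 : (j : ℤ) * p = j' * p := by linarith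
      have := mul_right_cancel₀ (by exact_mod_cast hp.ne' : (p : ℤ) ≠ 0) h3
      exact_mod_cast this
    rw [hi, hj]

/-- the six centres -/
def T (p : ℕ) : Finset (ℤ × ℤ) := T0.image fun u => ((p : ℤ) * u.1, (p : ℤ) * u.2)

theorem T_card : (T p).card = 6 := by
  have hp : (p : ℤ) ≠ 0 := by exact_mod_cast (Fact.out : p.Prime).pos.ne'
  unfold T
  rw [Finset.card_image_of_injective]
  · decide
  · rintro ⟨a, b⟩ ⟨a', b'⟩ h
    simp only [Prod.mk.injEq] at h
    exact Prod.ext (mul_left_cancel₀ hp h.1) (mul_left_cancel₀ hp h.2)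

theorem T_cen {P : ℤ × ℤ} (h : P ∈ T p) : Cen p P := by
  unfold T at h
  rw [Finset.mem_image] at h
  obtain ⟨u, hu, rfl⟩ := h
  exact ⟨u, hu, rfl⟩

end

/-- the grid `{0, …, N-1}²` -/
noncomputable def grid (N : ℕ) : Finset (ℤ × ℤ) := Finset.Ico 0 (N : ℤ) ×ˢ Finset.Ico 0 (N : ℤ)

/-- **all slopes except `1` and `-1`** -/
theorem diagonals (p : ℕ) (hp : p.Prime) (h24 : p % 24 = 1) : ∃ S : Finset (ℤ × ℤ), S ⊆ grid (2 * p + 1) ∧
    S.card = 2 * (2 * p + 1) ∧ ∀ P ∈ S, ∀ Q ∈ S, ∀ R ∈ S, P ≠ Q → P ≠ R → Q ≠ R → Col P Q R → Sl P Q := by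
  haveI : Fact p.Prime := ⟨hp⟩
  have hp2 : p ≠ 2 := by omega
  obtain ⟨c, hns⟩ := FiniteField.exists_nonsquare (F := ZMod p) (by rw [ZMod.ringChar_zmod_n]; exact hp2)
  have hc : c ≠ 0 := by rintro rfl; exact hns IsSquare.zero
  have hs := sq_of (p := p) h24
  refine ⟨H p c ∪ T p, ?_, ?_, ?_⟩
  · intro P hP
    unfold grid
    rw [Finset.mem_product, Finset.mem_Ico, Finset.mem_Ico]
    rcases Finset.mem_union.1 hP with h | h
    · have h3 := H_hyp hc h
      refine ⟨⟨h3.x0.le, ?_⟩, ⟨h3.y0.le, ?_⟩⟩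
      · have := h3.x1; push_cast; linarith
      · have := h3.y1; push_cast; linarith
    · obtain ⟨u, hu, rfl⟩ := T_cen h
      have hb : ∀ w ∈ T0, (0 ≤ w.1 ∧ w.1 ≤ 2) ∧ (0 ≤ w.2 ∧ w.2 ≤ 2) := by decide
      obtain ⟨⟨b1, b2⟩, b3, b4⟩ := hb u hu
      have hp0 : (0 : ℤ) < p := by exact_mod_cast hp.pos
      refine ⟨⟨by positivity, ?_⟩, ⟨by positivity, ?_⟩⟩
      · push_cast; nlinarith
      · push_cast; nlinarith
  · rw [Finset.card_union_of_disjoint, H_card hc, T_card]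
    · have := hp.pos; omega
    · rw [Finset.disjoint_left]
      intro P h1 h2
      exact hyp_x hc (H_hyp hc h1) (cen_zero (T_cen h2)).1
  · intro P hP Q hQ R hR hPQ hPR hQR hcol
    have hcase : ∀ X ∈ H p c ∪ T p, Hyp p c X ∨ Cen p X := by
      intro X hX
      rcases Finset.mem_union.1 hX with h | h
      · exact Or.inl (H_hyp hc h)
      · exact Or.inr (T_cen h)
    exact all_cases hc hs h24 hns (hcase P hP) (hcase Q hQ) (hcase R hR) hPQ hPR hQR hcol

end Pool.Agent.N3L
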