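import Pool.Agent.N3L.Diag

/-!
# No three in line, except on the lines of slope `1` and `-1`, and no five on these

The set of `Diag.lean` has at most four points on every line.
-/

set_option autoImplicit false

namespace Pool.Agent.N3L

section

variable {p : ℕ} [Fact p.Prime] {c : ZMod p}

/-- a set of points of the hyperbola on a line `y = e x + k`, `e = 1` or `e = -1`, has at most four
points -/
theorem four_hyp {e : ℤ} (he : e = 1 ∨ e = -1) (k : ℤ)
    {F : Finset (ℤ × ℤ)} (hF : ∀ R ∈ F, Hyp p c R ∧ R.2 = e * R.1 + k) : F.card ≤ 4 := by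
  classical
  have hinj : ∀ R ∈ F, ∀ R' ∈ F, R.1 = R'.1 → R = R' := by
    intro R hR R' hR' h
    refine Prod.ext h ?_
    rw [(hF R hR).2, (hF R' hR').2, h]
  have h1 : ∀ a ∈ F.image (fun R => (R.1 : ZMod p)),
      (F.filter (fun R => (R.1 : ZMod p) = a)).card ≤ 2 := by
    intro a _
    by_contra hcon
    push Not at hcon
    rw [Finset.two_lt_card_iff] at hcon
    obtain ⟨P, Q, R, hP, hQ, hR, n1, n2, n3⟩ := hcon
    rw [Finset.mem_filter] at hP hQ hR
    obtain ⟨hP, eP⟩ := hP
    obtain ⟨hQ, eQ⟩ := hQ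
    obtain ⟨hR, eR⟩ := hR
    have gP := (hF P hP).1
    have gQ := (hF Q hQ).1
    have gR := (hF R hR).1
    exact no_three gP.x0 gP.x1 gQ.x0 gQ.x1 gR.x0 gR.x1 (eP.trans eQ.symm) (eP.trans eR.symm)
      (fun h => n1 (hinj P hP Q hQ h)) (fun h => n2 (hinj P hP R hR h)) (fun h => n3 (hinj Q hQ R hR h))
  have h2 : (F.image (fun R => (R.1 : ZMod p))).card ≤ 2 := by
    by_contra hcon
    push Not at hcon
    rw [Finset.two_lt_card_iff] at hcon
    obtain ⟨x, y, z, hx, hy, hz, n1, n2, n3⟩ := hcon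
    rw [Finset.mem_image] at hx hy hz
    have key : ∀ R ∈ F, (R.1 : ZMod p) * ((e : ZMod p) * (R.1 : ZMod p) + (k : ZMod p)) = c := by
      intro R hR
      obtain ⟨g1, g2⟩ := hF R hR
      have := g1.h
      rw [g2] at this
      push_cast at this
      exact this
    obtain ⟨P, hP, rfl⟩ := hx
    obtain ⟨Q, hQ, rfl⟩ := hy
    obtain ⟨R, hR, rfl⟩ := hz
    have kP := key P hP
    have kQ := key Q hQ
    have kR := key R hR
    have e0 : (e : ZMod p) ≠ 0 := by
      rcases he with rfl | rfl <;> simp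
    generalize (P.1 : ZMod p) = x at *
    generalize (Q.1 : ZMod p) = y at *
    generalize (R.1 : ZMod p) = z at *
    have a1 : (x - y) * ((e : ZMod p) * (x + y) + k) = 0 := by linear_combination kP - kQ
    have a2 : (x - z) * ((e : ZMod p) * (x + z) + k) = 0 := by linear_combination kP - kR
    have b1 := (mul_eq_zero.1 a1).resolve_left (sub_ne_zero.2 n1)
    have b2 := (mul_eq_zero.1 a2).resolve_left (sub_ne_zero.2 n2)
    have b3 : (e : ZMod p) * (y - z) = 0 := by linear_combination b1 - b2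
    exact n3 (sub_eq_zero.1 ((mul_eq_zero.1 b3).resolve_left e0))
  have h3 := Finset.card_le_mul_card_image (f := fun R : ℤ × ℤ => (R.1 : ZMod p)) F 2 h1
  omega

/-- a centre and a point of the hyperbola are never on a line of slope `1` or `-1` -/
theorem no_mix (hs : Sq p) (hns : ¬ IsSquare c) {e : ℤ} (he : e = 1 ∨ e = -1) {P R : ℤ × ℤ}
    (hP : Cen p P) (hR : Hyp p c R) (h : R.2 - P.2 = e * (R.1 - P.1)) : False := by
  obtain ⟨z1, z2⟩ := cen_zero hP
  have h1 := congrArg (Int.cast : ℤ → ZMod p) h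
  push_cast at h1
  rw [z1, z2] at h1
  have h2 := hR.h
  apply hns
  obtain ⟨_, _, hm⟩ := hs
  obtain ⟨w, hw⟩ := hm
  rcases he with rfl | rfl
  · refine ⟨(R.1 : ZMod p), ?_⟩
    rw [← h2]
    push_cast at h1
    linear_combination (R.1 : ZMod p) * h1
  · refine ⟨w * (R.1 : ZMod p), ?_⟩
    rw [← h2]
    push_cast at h1
    linear_combination (R.1 : ZMod p) * h1 + (R.1 : ZMod p) * (R.1 : ZMod p) * hw

end

/-- **at most four points on every line, and at most two unless the slope is `1` or `-1`** -/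
theorem diagonals_four (p : ℕ) (hp : p.Prime) (h24 : p % 24 = 1) :
    ∃ S : Finset (ℤ × ℤ), S ⊆ grid (2 * p + 1) ∧ S.card = 2 * (2 * p + 1) ∧
      (∀ P ∈ S, ∀ Q ∈ S, ∀ R ∈ S, P ≠ Q → P ≠ R → Q ≠ R → Col P Q R → Sl P Q) ∧
      ∀ P ∈ S, ∀ Q ∈ S, P ≠ Q → ∀ F ⊆ S, (∀ R ∈ F, Col P Q R) → F.card ≤ 4 := by
  classical
  haveI : Fact p.Prime := ⟨hp⟩
  have hp2 : p ≠ 2 := by omega
  obtain ⟨c, hns⟩ := FiniteField.exists_nonsquare (F := ZMod p) (by rw [ZMod.ringChar_zmod_n]; exact hp2)
  have hc : c ≠ 0 := by rintro rfl; exact hns IsSquare.zero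
  have hs := sq_of (p := p) h24
  have hcase : ∀ X ∈ H p c ∪ T p, Hyp p c X ∨ Cen p X := by
    intro X hX
    rcases Finset.mem_union.1 hX with h | h
    · exact Or.inl (H_hyp hc h)
    · exact Or.inr (T_cen h)
  have hcol3 : ∀ P ∈ H p c ∪ T p, ∀ Q ∈ H p c ∪ T p, ∀ R ∈ H p c ∪ T p, P ≠ Q → P ≠ R → Q ≠ R →
      Col P Q R → Sl P Q := fun P hP Q hQ R hR hPQ hPR hQR hcol =>
    all_cases hc hs h24 hns (hcase P hP) (hcase Q hQ) (hcase R hR) hPQ hPR hQR hcol
  refine ⟨H p c ∪ T p, ?_, ?_, hcol3, ?_⟩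
  · intro P hP
    unfold grid
    rw [Finset.mem_product, Finset.mem_Ico, Finset.mem_Ico]
    rcases Finset.mem_union.1 hP with h | h
    · have h3 := H_hyp hc h
      refine ⟨⟨h3.x0.le, ?_⟩, ⟨h3.y0.le, ?_⟩⟩
      · have := h3.x1; push_cast; linarith
      · have := h3.y1; push_cast; linarith
    · obtain ⟨u, hu, rfl⟩ := T_cen h
      have hb : ∀ w ∈ T0, (0 ≤ w.1 ∧ w.1 ≤ 2) ∧ (0 ≤ w.2 ∧ w.2 ≤ 2) := by decide
      obtain ⟨⟨b1, b2⟩, b3, b4⟩ := hb u hu
      have hp0 : (0 : ℤ) < p := by exact_mod_cast hp.pos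
      refine ⟨⟨by positivity, ?_⟩, ⟨by positivity, ?_⟩⟩
      · push_cast; nlinarith
      · push_cast; nlinarith
  · rw [Finset.card_union_of_disjoint, H_card hc, T_card]
    · have := hp.pos; omega
    · rw [Finset.disjoint_left]
      intro P h1 h2
      exact hyp_x hc (H_hyp hc h1) (cen_zero (T_cen h2)).1
  · intro P hP Q hQ hPQ F hFS hF
    by_contra hcon
    push Not at hcon
    have hthird : ∃ R ∈ F, P ≠ R ∧ Q ≠ R := by
      by_contra hno
      push Not at hno
      have hsub : F ⊆ {P, Q} := by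
        intro R hR
        rw [Finset.mem_insert, Finset.mem_singleton]
        by_cases h : P = R
        · exact Or.inl h.symm
        · exact Or.inr (hno R hR h).symm
      have := Finset.card_le_card hsub
      have h2 : ({P, Q} : Finset (ℤ × ℤ)).card ≤ 2 := Finset.card_le_two
      omega
    obtain ⟨R, hR, n2, n3⟩ := hthird
    have hsl := hcol3 P hP Q hQ R (hFS hR) hPQ n2 n3 (hF R hR)
    have hex : ∃ e : ℤ, (e = 1 ∨ e = -1) ∧ ∀ X ∈ F, X.2 - P.2 = e * (X.1 - P.1) := by
      have hx : Q.1 - P.1 ≠ 0 := by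
        intro h0
        apply hPQ
        rcases hsl with h | h
        · exact Prod.ext (by linarith) (by linarith)
        · exact Prod.ext (by linarith) (by linarith)
      rcases hsl with h | h
      · refine ⟨1, Or.inl rfl, fun X hX => ?_⟩
        have h1 := hF X hX
        unfold Col at h1
        rw [h] at h1
        have := mul_left_cancel₀ hx h1
        linarith
      · refine ⟨-1, Or.inr rfl, fun X hX => ?_⟩
        have h1 := hF X hX
        unfold Col at h1
        rw [h] at h1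
        have h2 : (Q.1 - P.1) * (X.2 - P.2) = (Q.1 - P.1) * -(X.1 - P.1) := by linear_combination h1
        have := mul_left_cancel₀ hx h2
        linarith
    obtain ⟨e, he, hX⟩ := hex
    have hXY : ∀ X ∈ F, ∀ Y ∈ F, Y.2 - X.2 = e * (Y.1 - X.1) := by
      intro X hX1 Y hY1
      linear_combination hX Y hY1 - hX X hX1
    by_cases hcen : ∃ X ∈ F, Cen p X
    · obtain ⟨X, hX1, hX2⟩ := hcen
      have hall : ∀ Y ∈ F, Cen p Y := by
        intro Y hY
        rcases hcase Y (hFS hY) with h | h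
        · exact (no_mix hs hns he hX2 h (hXY X hX1 Y hY)).elim
        · exact h
      have h3 : 2 < F.card := by omega
      rw [Finset.two_lt_card_iff] at h3
      obtain ⟨A, B, C, hA, hB, hC, m1, m2, m3⟩ := h3
      refine three_cen (hall A hA) (hall B hB) (hall C hC) m1 m2 m3 ?_
      unfold Col
      rw [hXY A hA B hB, hXY A hA C hC]
      ring
    · push Not at hcen
      have := four_hyp (p := p) (c := c) he (P.2 - e * P.1) (F := F) (fun Y hY => by
        refine ⟨(hcase Y (hFS hY)).resolve_right (hcen Y hY), ?_⟩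
        linear_combination hX Y hY)
      omega

end Pool.Agent.N3L
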